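import Pool.Agent.Helper37.ETC.Defs

/-!
# ETC-R2: the fixed field of an involution is euclidean
-/

set_option autoImplicit false

namespace Pool.Helper37.ETC

open Module

section Galois

variable {p : ℕ} [Fact p.Prime] {G K : Type*} [Group G] [TopologicalSpace G]
  [IsTopologicalGroup G] [CompactSpace G] [T2Space G] [TotallyDisconnectedSpace G] [Field K]
  [MulSemiringAction G K] {ζ : K}

/-- R2 -/
theorem involution_struct (Gd : Good 2 G K ζ) (c : G) (hc : c * c = 1) (hc1 : c ≠ 1) :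
    (∀ x ∈ (Pc c : Set K), ∀ y ∈ (Pc c : Set K), x + y ∈ (Pc c : Set K)) ∧
    (∀ x : K, x ≠ 0 → c • x = x → x ∈ (Pc c : Set K) ∨ -x ∈ (Pc c : Set K)) ∧
    (∀ x ∈ (Pc c : Set K), -x ∉ (Pc c : Set K)) ∧
    ∃ i : K, i ^ 2 = -1 ∧ c • i = -i := by
  have hcc : ∀ x : K, c • c • x = x := by
    intro x
    rw [smul_smul, hc, one_smul]
  have h2 : (2 : K) ≠ 0 := by
    intro h
    have h1 : ζ ^ 2 = 1 := Gd.prim.pow_eq_one
    have h3 : (ζ - 1) ^ 2 = 0 := by
      have : (ζ - 1) ^ 2 = ζ ^ 2 - 2 * ζ + 1 := by ring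
      rw [this, h, h1]
      have h4 : (1 : K) + 1 = 2 := by norm_num
      calc (1 : K) - 0 * ζ + 1 = 1 + 1 := by ring
        _ = 0 := by rw [h4, h]
    have h5 : ζ = 1 := sub_eq_zero.1 (pow_eq_zero_iff (two_ne_zero) |>.1 h3)
    have h6 := Gd.prim.pow_ne_one_of_pos_of_lt (l := 1) one_ne_zero (by norm_num)
    exact h6 (by rw [h5, pow_one])
  -- an element moved by `c`
  obtain ⟨z, hz⟩ : ∃ z : K, c • z ≠ z := by
    by_contra hcon
    exact hc1 (Gd.faith c (by simpa using hcon))
  set δ : K := z - c • z with hδ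
  have hδ0 : δ ≠ 0 := fun h => hz (sub_eq_zero.1 h).symm
  have hcδ : c • δ = -δ := by
    rw [hδ, smul_sub, hcc]
    ring
  obtain ⟨ε, hε⟩ := Gd.root δ
  set n : K := ε * c • ε with hn
  have hcn : c • n = n := by
    rw [hn, smul_mul', hcc, mul_comm]
  have hn2 : n ^ 2 = -δ ^ 2 := by
    have : n ^ 2 = ε ^ 2 * c • (ε ^ 2) := by
      rw [hn, smul_pow']
      ring
    rw [this, hε, hcδ]
    ring
  have hn0 : n ≠ 0 := by
    intro h
    rw [h] at hn2
    have : δ ^ 2 = 0 := by
      have h3 : (0 : K) ^ 2 = 0 := by norm_num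
      rw [h3] at hn2
      exact (neg_eq_zero.1 hn2.symm)
    exact hδ0 (pow_eq_zero_iff two_ne_zero |>.1 this)
  set i : K := δ / n with hi
  have hi2 : i ^ 2 = -1 := by
    rw [hi, div_pow, hn2]
    field_simp
  have hci : c • i = -i := by
    rw [hi, smul_div₀', hcδ, hcn]
    ring
  have hi0 : i ≠ 0 := by
    intro h
    rw [h] at hi2
    have : (0 : K) ^ 2 = 0 := by norm_num
    rw [this] at hi2
    have h3 : (1 : K) = 0 := neg_eq_zero.1 hi2.symm
    exact one_ne_zero h3
  -- no fixed square root of `-1`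
  have hno : ∀ y : K, c • y = y → y ^ 2 ≠ -1 := by
    intro y hy hy2
    have h3 : (y - i) * (y + i) = 0 := by
      have : (y - i) * (y + i) = y ^ 2 - i ^ 2 := by ring
      rw [this, hy2, hi2]
      ring
    have h4 : y = i ∨ y = -i := by
      rcases mul_eq_zero.1 h3 with h | h
      · exact Or.inl (sub_eq_zero.1 h)
      · exact Or.inr (eq_neg_of_add_eq_zero_left h)
    have h5 : c • i = i := by
      rcases h4 with h | h
      · rw [← h]; exact hy
      · have : i = -y := by rw [h]; ring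
        rw [this, smul_neg, hy]
    rw [hci] at h5
    have h6 : (2 : K) * i = 0 := by
      have : (2 : K) * i = i - -i := by ring
      rw [this, h5]
      ring
    exact (mul_ne_zero h2 hi0) h6
  refine ⟨?_, ?_, ?_, i, hi2, hci⟩
  · rintro x ⟨hx0, y, hy, hyx⟩ x' ⟨hx0', y', hy', hyx'⟩
    have hy0' : y' ≠ 0 := by
      rintro rfl
      apply hx0'
      rw [← hyx']
      norm_num
    obtain ⟨w, hw⟩ := Gd.root (y + i * y')
    have hcu : c • (y + i * y') = y - i * y' := by
      rw [smul_add, smul_mul', hy, hci, hy']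
      ring
    have hN : (w * c • w) ^ 2 = x + x' := by
      have : (w * c • w) ^ 2 = w ^ 2 * c • (w ^ 2) := by
        rw [smul_pow']
        ring
      rw [this, hw, hcu, ← hyx, ← hyx']
      have : (y + i * y') * (y - i * y') = y ^ 2 - i ^ 2 * y' ^ 2 := by ring
      rw [this, hi2]
      ring
    refine ⟨?_, w * c • w, ?_, hN⟩
    · intro h
      refine hno (y / y') ?_ ?_
      · rw [smul_div₀', hy, hy']
      · rw [div_pow, hyx, hyx', eq_neg_of_add_eq_zero_left h]
        field_simp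
    · rw [smul_mul', hcc, mul_comm]
  · intro x hx0 hx
    obtain ⟨w, hw⟩ := Gd.root x
    have h3 : (c • w) ^ 2 = w ^ 2 := by
      rw [← smul_pow', hw, hx]
    have h4 : (c • w - w) * (c • w + w) = 0 := by
      have : (c • w - w) * (c • w + w) = (c • w) ^ 2 - w ^ 2 := by ring
      rw [this, h3, sub_self]
    rcases mul_eq_zero.1 h4 with h | h
    · exact Or.inl ⟨hx0, w, sub_eq_zero.1 h, hw⟩
    · right
      have hcw : c • w = -w := eq_neg_of_add_eq_zero_left h
      refine ⟨neg_ne_zero.2 hx0, w / i, ?_, ?_⟩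
      · rw [smul_div₀', hcw, hci, neg_div_neg_eq]
      · rw [div_pow, hw, hi2]
        field_simp
  · rintro x ⟨hx0, y, hy, hyx⟩ ⟨-, y', hy', hyx'⟩
    have hy0 : y ≠ 0 := by
      rintro rfl
      apply hx0
      rw [← hyx]
      norm_num
    refine hno (y' / y) ?_ ?_
    · rw [smul_div₀', hy, hy']
    · rw [div_pow, hyx, hyx']
      field_simp

end Galois

end Pool.Helper37.ETC
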