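import Pool.Agent.Helper37.ETC.Defs

/-!
# ETC-O4: a valuation ring is determined by a finer or coarser one and its trace on the fixed field
-/

set_option autoImplicit false

namespace Pool.Helper37.ETC

open Module

section Galois

variable {p : ℕ} [Fact p.Prime] {G K : Type*} [Group G] [TopologicalSpace G]
  [IsTopologicalGroup G] [CompactSpace G] [T2Space G] [TotallyDisconnectedSpace G] [Field K]
  [MulSemiringAction G K] {ζ : K}

/-- every element of `K` is a root of a nonzero polynomial over the fixed field. -/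
theorem O4.exists_poly (hc : ∀ x : K, IsOpen {σ : G | σ • x = x}) (x : K) :
    IsIntegral (Fxs G K) x := by
  let _ : TopologicalSpace K := ⊥
  have : DiscreteTopology K := ⟨rfl⟩
  have : ContinuousSMul G K := by
    refine ⟨continuous_iff_continuousAt.2 ?_⟩
    rintro ⟨σ, y⟩
    rw [ContinuousAt, nhds_discrete K, Filter.tendsto_pure]
    have h1 : {τ : G | σ⁻¹ * τ ∈ {ρ : G | ρ • y = y}} ∈ nhds σ := by
      refine IsOpen.mem_nhds ((hc y).preimage (continuous_const.mul continuous_id)) ?_
      simp
    have h2 : ({y} : Set K) ∈ nhds y := by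
      rw [nhds_discrete]; exact Filter.mem_pure.2 rfl
    filter_upwards [prod_mem_nhds h1 h2] with q hq
    obtain ⟨hq1, hq2⟩ := hq
    have hq2' : q.2 = y := hq2
    have hq1' : (σ⁻¹ * q.1) • y = y := hq1
    change q.1 • q.2 = σ • y
    rw [hq2']
    rw [mul_smul, inv_smul_eq_iff] at hq1'
    exact hq1'
  have : Algebra.IsInvariant (Fxs G K) K G := ⟨fun b hb => ⟨⟨b, hb⟩, rfl⟩⟩
  exact (Algebra.IsInvariant.isIntegral_of_profinite (A := Fxs G K) (B := K) (G := G)).1 x

/-- a power of `x` has the valuation of an element of the fixed field. -/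
theorem O4.exists_pow_val (hc : ∀ x : K, IsOpen {σ : G | σ • x = x}) (A : ValuationSubring K)
    (x : K) (hx : x ≠ 0) : ∃ (n : ℕ) (e : Fxs G K), 0 < n ∧ (e : K) ≠ 0 ∧
      A.valuation (x ^ n) = A.valuation (e : K) := by
  classical
  obtain ⟨f, hf, hfx⟩ := O4.exists_poly (G := G) hc x
  -- valuation of the terms
  set v := A.valuation with hv
  have hf0 : f ≠ 0 := hf.ne_zero
  have hsum : ∑ i ∈ f.support, ((f.coeff i : K)) * x ^ i = 0 := by
    rw [← hfx, Polynomial.eval₂_eq_sum, Polynomial.sum_def]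
    rfl
  have hne : f.support.Nonempty := by
    rwa [Polynomial.nonempty_support_iff]
  obtain ⟨i, hi, hmax⟩ := f.support.exists_max_image (fun i => v ((f.coeff i : K) * x ^ i)) hne
  have hci : ∀ j ∈ f.support, (f.coeff j : K) ≠ 0 := by
    intro j hj
    have := Polynomial.mem_support_iff.1 hj
    exact fun h => this (Subtype.ext h)
  have hvi : ∀ j ∈ f.support, v ((f.coeff j : K) * x ^ j) ≠ 0 := by
    intro j hj
    rw [Valuation.ne_zero_iff]
    exact mul_ne_zero (hci j hj) (pow_ne_zero _ hx)
  -- a second index with the same value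
  have hex : ∃ j ∈ f.support, j ≠ i ∧
      v ((f.coeff j : K) * x ^ j) = v ((f.coeff i : K) * x ^ i) := by
    by_contra hcon
    push Not at hcon
    have hlt : ∀ j ∈ f.support.erase i, v ((f.coeff j : K) * x ^ j) <
        v ((f.coeff i : K) * x ^ i) := by
      intro j hj
      obtain ⟨hj1, hj2⟩ := Finset.mem_erase.1 hj
      exact lt_of_le_of_ne (hmax j hj2) (hcon j hj2 hj1)
    have h1 : v (∑ j ∈ f.support.erase i, (f.coeff j : K) * x ^ j) <
        v ((f.coeff i : K) * x ^ i) := Valuation.map_sum_lt v (hvi i hi) hlt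
    have h2 : (f.coeff i : K) * x ^ i = - ∑ j ∈ f.support.erase i, (f.coeff j : K) * x ^ j := by
      rw [← Finset.add_sum_erase _ _ hi] at hsum
      exact eq_neg_of_add_eq_zero_left hsum
    rw [h2, Valuation.map_neg] at h1
    exact lt_irrefl _ h1
  obtain ⟨j, hj, hji, hval⟩ := hex
  -- general statement
  have key : ∀ a b : ℕ, a < b → a ∈ f.support → b ∈ f.support →
      v ((f.coeff a : K) * x ^ a) = v ((f.coeff b : K) * x ^ b) →
      ∃ (n : ℕ) (e : Fxs G K), 0 < n ∧ (e : K) ≠ 0 ∧ v (x ^ n) = v (e : K) := by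
    intro a b hab ha hb h
    refine ⟨b - a, f.coeff a / f.coeff b, Nat.sub_pos_of_lt hab, ?_, ?_⟩
    · have : ((f.coeff a / f.coeff b : Fxs G K) : K) = (f.coeff a : K) / (f.coeff b : K) := rfl
      rw [this]
      exact div_ne_zero (hci a ha) (hci b hb)
    · have e1 : ((f.coeff a / f.coeff b : Fxs G K) : K) = (f.coeff a : K) / (f.coeff b : K) := rfl
      rw [e1, map_div₀]
      have hb0 : v (f.coeff b : K) ≠ 0 := (Valuation.ne_zero_iff _).2 (hci b hb)
      have hx0 : v x ^ a ≠ 0 := pow_ne_zero _ ((Valuation.ne_zero_iff _).2 hx)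
      rw [eq_div_iff hb0]
      rw [map_mul, map_mul, map_pow, map_pow] at h
      rw [map_pow]
      have hpow : v x ^ b = v x ^ (b - a) * v x ^ a := by
        rw [← pow_add, Nat.sub_add_cancel hab.le]
      rw [hpow] at h
      have h3 : (v x ^ (b - a) * v (f.coeff b : K)) * v x ^ a = v (f.coeff a : K) * v x ^ a := by
        rw [h]
        rw [← mul_assoc, mul_comm (v (f.coeff b : K))]
      exact mul_right_cancel₀ hx0 h3
  rcases lt_or_gt_of_ne hji with h | h
  · exact key j i h hj hi hval
  · exact key i j h hi hj hval.symm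

/-- O4 -/
theorem eq_of_le_of_res (hc : ∀ x : K, IsOpen {σ : G | σ • x = x}) (A B : ValuationSubring K)
    (hAB : A ≤ B) (h : res G A = res G B) : A = B := by
  refine le_antisymm hAB fun x hx => ?_
  by_contra hxA
  have hx0 : x ≠ 0 := by
    rintro rfl
    exact hxA A.zero_mem
  obtain ⟨n, e, hn, he, hval⟩ := O4.exists_pow_val (G := G) hc A x hx0
  -- `x ^ n` has the `A`-valuation of `e`
  have hxn : ¬ A.valuation (x ^ n) ≤ 1 := by
    rw [map_pow]
    have h1 : 1 < A.valuation x := by
      by_contra hcon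
      exact hxA ((A.valuation_le_one_iff x).1 (not_lt.1 hcon))
    exact not_le.2 (one_lt_pow₀ h1 hn.ne')
  have heA : (e : K) ∉ A := by
    intro hmem
    rw [hval] at hxn
    exact hxn ((A.valuation_le_one_iff _).2 hmem)
  -- `e / x ^ n` is a unit of `A`, so lies in `B`
  have hu : (e : K) / x ^ n ∈ A := by
    rw [← A.valuation_le_one_iff, map_div₀, ← hval, div_self]
    rw [Valuation.ne_zero_iff]
    exact pow_ne_zero _ hx0
  have heB : (e : K) ∈ B := by
    have : (e : K) = (e : K) / x ^ n * x ^ n := by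
      rw [div_mul_cancel₀ _ (pow_ne_zero _ hx0)]
    rw [this]
    exact B.mul_mem _ _ (hAB hu) (pow_mem hx n)
  have h1 : e ∈ res G B := heB
  rw [← h] at h1
  exact heA h1

end Galois

end Pool.Helper37.ETC
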