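import Pool.Agent.Helper37.ETC.Defs

/-!
# ETC-W1: the residue field of characteristic different from `p`
-/

set_option autoImplicit false

namespace Pool.Helper37.ETC

open Module

section Galois

variable {p : ℕ} [Fact p.Prime] {G K : Type*} [Group G] [TopologicalSpace G]
  [IsTopologicalGroup G] [CompactSpace G] [T2Space G] [TotallyDisconnectedSpace G] [Field K]
  [MulSemiringAction G K] {ζ : K}

/-- W1 (the residue field of characteristic `≠ p`) -/
theorem good_residue (Gd : Good p G K ζ) (O : ValuationSubring K) (hT : NoInertia G O)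
    (hchar : (p : IsLocalRing.ResidueField O) ≠ 0) :
    letI := resAct (G := G) O
    ∃ ζ' : IsLocalRing.ResidueField O, Good p (Zg G O) (IsLocalRing.ResidueField O) ζ' := by
  let _ := resAct (G := G) O
  have hp : p.Prime := Fact.out
  have hact : ∀ (σ : Zg G O) (x : O),
      σ • IsLocalRing.residue O x = IsLocalRing.residue O (actO O σ x) := fun σ x => rfl
  have hroot : ∀ x : K, x ^ p ∈ O → x ∈ O := by
    intro x hx
    rw [← O.valuation_le_one_iff] at hx ⊢
    rw [map_pow] at hx
    exact (pow_le_one_iff_of_nonneg zero_le hp.ne_zero).1 hx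
  have hζO : ζ ∈ O := hroot ζ (by rw [Gd.prim.pow_eq_one]; exact O.one_mem)
  set z : O := ⟨ζ, hζO⟩ with hz
  have hzp : z ^ p = 1 := Subtype.ext (by simp [hz, Gd.prim.pow_eq_one])
  refine ⟨IsLocalRing.residue O z, ?_, ?_, ?_, ?_, ?_, ?_⟩
  · intro x
    obtain ⟨a, rfl⟩ := IsLocalRing.residue_surjective x
    have h1 : IsOpen (MulAction.stabilizer (Zg G O) (a : K) : Set (Zg G O)) := by
      have h2 : IsOpen {σ : Zg G O | (σ : G) • (a : K) = a} :=
        (Gd.cont (a : K)).preimage continuous_subtype_val
      exact h2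
    have h3 : MulAction.stabilizer (Zg G O) (a : K) ≤
        MulAction.stabilizer (Zg G O) (IsLocalRing.residue O a) := by
      intro σ hσ
      have h4 : (σ : G) • (a : K) = a := hσ
      change σ • IsLocalRing.residue O a = IsLocalRing.residue O a
      rw [hact]
      congr 1
      exact Subtype.ext h4
    exact Subgroup.isOpen_mono h3 h1
  · intro σ hσ
    refine Subtype.ext (hT σ σ.2 ?_)
    intro x hx
    have h1 := hσ (IsLocalRing.residue O ⟨x, hx⟩)
    rw [hact, ← sub_eq_zero, ← map_sub, IsLocalRing.residue_eq_zero_iff,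
      ValuationSubring.valuation_lt_one_iff] at h1
    exact h1
  · intro x
    obtain ⟨a, rfl⟩ := IsLocalRing.residue_surjective x
    obtain ⟨b, hb⟩ := Gd.root (a : K)
    have hbO : b ∈ O := hroot b (hb ▸ a.2)
    refine ⟨IsLocalRing.residue O ⟨b, hbO⟩, ?_⟩
    rw [← map_pow]
    congr 1
    exact Subtype.ext hb
  · rw [IsPrimitiveRoot.iff_orderOf]
    refine orderOf_eq_prime ?_ ?_
    · rw [← map_pow, hzp, map_one]
    · intro h
      have h1 : ∑ i ∈ Finset.range p, z ^ i = 0 := by
        refine Subtype.ext ?_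
        have h2 := Gd.prim.geom_sum_eq_zero hp.one_lt
        push_cast
        exact h2
      have h3 := congrArg (IsLocalRing.residue O) h1
      rw [map_sum, map_zero] at h3
      have h4 : ∑ i ∈ Finset.range p, IsLocalRing.residue O (z ^ i) = (p : IsLocalRing.ResidueField O) := by
        simp [map_pow, h]
      exact hchar (h4 ▸ h3)
  · intro σ
    rw [hact]
    congr 1
    exact Subtype.ext (Gd.fix (σ : G))
  · intro σ x
    obtain ⟨a, rfl⟩ := IsLocalRing.residue_surjective x
    obtain ⟨k, hk⟩ := Gd.tors (σ : G) (a : K)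
    refine ⟨k, ?_⟩
    rw [hact]
    congr 1
    refine Subtype.ext ?_
    change ((σ ^ p ^ k : Zg G O) : G) • (a : K) = a
    push_cast
    exact hk

end Galois

end Pool.Helper37.ETC
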