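import Pool.Agent.Helper37.ETC.Defs
import Pool.Agent.Helper31.ETC.O4

/-!
# ETC-W4, W5: composite valuation rings
-/

set_option autoImplicit false

namespace Pool.Helper37.ETC

open Module

theorem W4.val_lt_one_iff {F : Type*} [Field F] (A : ValuationSubring F) (y : F) :
    A.valuation y < 1 ↔ y = 0 ∨ y⁻¹ ∉ A := by
  rcases eq_or_ne y 0 with rfl | hy
  · simp
  · have h1 : y⁻¹ ∉ A ↔ 1 < A.valuation y⁻¹ := by
      rw [← A.valuation_le_one_iff, not_le]
    have h2 : A.valuation y ≠ 0 := (Valuation.ne_zero_iff _).2 hy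
    rw [h1, map_inv₀, one_lt_inv₀ (zero_lt_iff.2 h2)]
    simp [hy]

/-- the composite of `O` with the valuation ring `O₁` of its residue field. -/
def W4.comp {K : Type*} [Field K] (O : ValuationSubring K)
    (O₁ : ValuationSubring (IsLocalRing.ResidueField O)) : ValuationSubring K where
  carrier := {x | ∃ h : x ∈ O, IsLocalRing.residue O ⟨x, h⟩ ∈ O₁}
  mul_mem' := by
    rintro a b ⟨ha, ha'⟩ ⟨hb, hb'⟩
    refine ⟨O.mul_mem _ _ ha hb, ?_⟩
    have : IsLocalRing.residue O ⟨a * b, O.mul_mem _ _ ha hb⟩ =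
        IsLocalRing.residue O ⟨a, ha⟩ * IsLocalRing.residue O ⟨b, hb⟩ := by
      rw [← map_mul]; rfl
    rw [this]
    exact O₁.mul_mem _ _ ha' hb'
  one_mem' := ⟨O.one_mem, by
    have : IsLocalRing.residue O ⟨1, O.one_mem⟩ = 1 := map_one _
    rw [this]; exact O₁.one_mem⟩
  add_mem' := by
    rintro a b ⟨ha, ha'⟩ ⟨hb, hb'⟩
    refine ⟨O.add_mem _ _ ha hb, ?_⟩
    have : IsLocalRing.residue O ⟨a + b, O.add_mem _ _ ha hb⟩ =
        IsLocalRing.residue O ⟨a, ha⟩ + IsLocalRing.residue O ⟨b, hb⟩ := by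
      rw [← map_add]; rfl
    rw [this]
    exact O₁.add_mem _ _ ha' hb'
  zero_mem' := ⟨O.zero_mem, by
    have : IsLocalRing.residue O ⟨0, O.zero_mem⟩ = 0 := map_zero _
    rw [this]; exact O₁.zero_mem⟩
  neg_mem' := by
    rintro a ⟨ha, ha'⟩
    refine ⟨O.neg_mem _ ha, ?_⟩
    have : IsLocalRing.residue O ⟨-a, O.neg_mem _ ha⟩ = -IsLocalRing.residue O ⟨a, ha⟩ := by
      rw [← map_neg]; rfl
    rw [this]
    exact O₁.neg_mem _ ha'
  mem_or_inv_mem' := by
    intro x
    by_cases hx : x ∈ O
    · by_cases hr : IsLocalRing.residue O ⟨x, hx⟩ ∈ O₁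
      · exact Or.inl ⟨hx, hr⟩
      · right
        have hr0 : IsLocalRing.residue O ⟨x, hx⟩ ≠ 0 := by
          intro h
          rw [h] at hr
          exact hr O₁.zero_mem
        have hu : IsUnit (⟨x, hx⟩ : O) := by
          by_contra hcon
          exact hr0 ((IsLocalRing.residue_eq_zero_iff _).2 ((IsLocalRing.mem_maximalIdeal _).2 hcon))
        obtain ⟨y, hy⟩ := hu.exists_right_inv
        have hxy : x * (y : K) = 1 := congrArg Subtype.val hy
        have hyx : (y : K) = x⁻¹ := (inv_eq_of_mul_eq_one_right hxy).symm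
        have hmem : x⁻¹ ∈ O := hyx ▸ y.2
        refine ⟨hmem, ?_⟩
        have h1 : IsLocalRing.residue O ⟨x⁻¹, hmem⟩ = (IsLocalRing.residue O ⟨x, hx⟩)⁻¹ := by
          refine (inv_eq_of_mul_eq_one_right ?_).symm
          rw [← map_mul, ← map_one (IsLocalRing.residue O)]
          congr 1
          refine Subtype.ext ?_
          have : x ≠ 0 := by
            rintro rfl
            rw [zero_mul] at hxy
            exact zero_ne_one hxy
          exact mul_inv_cancel₀ this
        rw [h1]
        exact (O₁.mem_or_inv_mem _).resolve_left hr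
    · right
      have hmem : x⁻¹ ∈ O := (O.mem_or_inv_mem x).resolve_left hx
      refine ⟨hmem, ?_⟩
      have h0 : IsLocalRing.residue O ⟨x⁻¹, hmem⟩ = 0 := by
        rw [IsLocalRing.residue_eq_zero_iff, IsLocalRing.mem_maximalIdeal]
        intro hu
        obtain ⟨y, hy⟩ := hu.exists_right_inv
        have hxy : x⁻¹ * (y : K) = 1 := congrArg Subtype.val hy
        have : (y : K) = x := by
          rw [← inv_inv x]
          exact (inv_eq_of_mul_eq_one_right hxy).symm
        exact hx (this ▸ y.2)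
      rw [h0]
      exact O₁.zero_mem

section Galois

variable {p : ℕ} [Fact p.Prime] {G K : Type*} [Group G] [TopologicalSpace G]
  [IsTopologicalGroup G] [CompactSpace G] [T2Space G] [TotallyDisconnectedSpace G] [Field K]
  [MulSemiringAction G K] {ζ : K}

/-- W4 (composite valuation rings) -/
theorem exists_comp (hcont : ∀ x : K, IsOpen {σ : G | σ • x = x}) (O : ValuationSubring K)
    (O₁ : ValuationSubring (IsLocalRing.ResidueField O)) :
    letI := resAct (G := G) O
    ∃ O₂ : ValuationSubring K, O₂ ≤ O ∧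
      (∀ x : O, (x : K) ∈ O₂ ↔ IsLocalRing.residue O x ∈ O₁) ∧
      (∀ x : O, O₂.valuation (x : K) < 1 ↔ O₁.valuation (IsLocalRing.residue O x) < 1) ∧
      Zg G O₂ = (Zg (Zg G O) O₁).map (Zg G O).subtype := by
  let _ := resAct (G := G) O
  have hmem : ∀ x : O, (x : K) ∈ W4.comp O O₁ ↔ IsLocalRing.residue O x ∈ O₁ := by
    intro x
    constructor
    · rintro ⟨h, h'⟩
      exact h'
    · intro h
      exact ⟨x.2, h⟩
  have hle : W4.comp O O₁ ≤ O := fun x hx => hx.1
  refine ⟨W4.comp O O₁, hle, hmem, ?_, ?_⟩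
  · intro x
    rw [W4.val_lt_one_iff, W4.val_lt_one_iff]
    by_cases hr : IsLocalRing.residue O x = 0
    · refine ⟨fun _ => Or.inl hr, fun _ => ?_⟩
      by_cases hx : (x : K) = 0
      · exact Or.inl hx
      · right
        intro h
        have h1 : (x : K)⁻¹ ∈ O := hle h
        have h2 : IsUnit x := by
          refine IsUnit.of_mul_eq_one ⟨(x : K)⁻¹, h1⟩ ?_
          exact Subtype.ext (mul_inv_cancel₀ hx)
        exact ((IsLocalRing.mem_maximalIdeal _).1 ((IsLocalRing.residue_eq_zero_iff _).1 hr)) h2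
    · have hu : IsUnit x := by
        by_contra hcon
        exact hr ((IsLocalRing.residue_eq_zero_iff _).2 ((IsLocalRing.mem_maximalIdeal _).2 hcon))
      obtain ⟨y, hy⟩ := hu.exists_right_inv
      have hxy : (x : K) * (y : K) = 1 := congrArg Subtype.val hy
      have hx0 : (x : K) ≠ 0 := by
        intro h
        rw [h, zero_mul] at hxy
        exact zero_ne_one hxy
      have hyx : (x : K)⁻¹ = y := inv_eq_of_mul_eq_one_right hxy
      have hry : (IsLocalRing.residue O x)⁻¹ = IsLocalRing.residue O y := by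
        refine inv_eq_of_mul_eq_one_right ?_
        rw [← map_mul, hy, map_one]
      rw [hyx, hry, hmem]
      simp [hx0, hr]
  · ext σ
    constructor
    · intro hσ
      -- `σ` preserves `O`
      have hσO : σ ∈ Zg G O := by
        set B : ValuationSubring K := O.comap (MulSemiringAction.toRingHom G K σ) with hB
        have hBmem : ∀ x : K, x ∈ B ↔ σ • x ∈ O := fun x => Iff.rfl
        have h1 : W4.comp O O₁ ≤ B := fun x hx => hle ((hσ x).1 hx)
        have hres : res G O = res G B := by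
          ext e
          have he : σ • (e : K) = (e : K) := e.2 σ
          change (e : K) ∈ O ↔ σ • (e : K) ∈ O
          rw [he]
        have heq : O = B := by
          rcases le_total (⟨O, hle⟩ : {S // W4.comp O O₁ ≤ S}) ⟨B, h1⟩ with h | h
          · exact eq_of_le_of_res hcont O B h hres
          · exact (eq_of_le_of_res hcont B O h hres.symm).symm
        intro x
        rw [← hBmem, ← heq]
      refine ⟨⟨σ, hσO⟩, ?_, rfl⟩
      intro y
      obtain ⟨x, rfl⟩ := IsLocalRing.residue_surjective y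
      have h1 := hσ (x : K)
      rw [hmem x] at h1
      rw [h1]
      exact hmem (actO O ⟨σ, hσO⟩ x)
    · rintro ⟨τ, hτ, rfl⟩
      intro x
      by_cases hx : x ∈ O
      · have h1 := hτ (IsLocalRing.residue O ⟨x, hx⟩)
        rw [← hmem ⟨x, hx⟩] at h1
        refine h1.trans ?_
        exact (hmem (actO O τ ⟨x, hx⟩)).symm
      · have hx' : (τ : G) • x ∉ O := fun h => hx ((τ.2 x).2 h)
        exact ⟨fun h => absurd (hle h) hx, fun h => absurd (hle h) hx'⟩

/-- W5 (uses W4) -/
theorem typed_transfer (hcont : ∀ x : K, IsOpen {σ : G | σ • x = x}) (O : ValuationSubring K)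
    (H : Subgroup (Zg G O)) :
    letI := resAct (G := G) O
    Typed p (IsLocalRing.ResidueField O) H → Typed p K (H.map (Zg G O).subtype) := by
  let _ := resAct (G := G) O
  -- the homeomorphism
  have hmap : ∀ x : (H.map (Zg G O).subtype), ∃ h : (x : G) ∈ Zg G O, (⟨x, h⟩ : Zg G O) ∈ H := by
    rintro ⟨_, y, hy, rfl⟩
    exact ⟨y.2, hy⟩
  have e : (H.map (Zg G O).subtype) ≃ₜ* H :=
    { toFun := fun x => ⟨⟨x, (hmap x).choose⟩, (hmap x).choose_spec⟩
      invFun := fun y => ⟨((y : Zg G O) : G), ⟨y, y.2, rfl⟩⟩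
      left_inv := fun x => rfl
      right_inv := fun y => rfl
      map_mul' := fun x y => rfl
      continuous_toFun := Continuous.subtype_mk (Continuous.subtype_mk continuous_subtype_val _) _
      continuous_invFun := Continuous.subtype_mk
        (continuous_subtype_val.comp continuous_subtype_val) _ }
  rintro (⟨⟨f⟩⟩ | ⟨O₁, hO₁, σ, hσ, hσ1, hin⟩ | ⟨hp, hcard⟩)
  · exact Or.inl ⟨e.trans f⟩
  · right; left
    obtain ⟨O₂, hle, hmem, hval, hZ⟩ := exists_comp (G := G) hcont O O₁
    refine ⟨O₂, ?_, (σ : G), ⟨σ, hσ, rfl⟩, ?_, ?_⟩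
    · rw [hO₁, hZ]
    · intro h
      exact hσ1 (Subtype.ext h)
    · intro x hx
      have hxO : x ∈ O := hle hx
      have h1 := hin (IsLocalRing.residue O ⟨x, hxO⟩) ((hmem ⟨x, hxO⟩).1 hx)
      have h2 : σ • IsLocalRing.residue O ⟨x, hxO⟩ - IsLocalRing.residue O ⟨x, hxO⟩ =
          IsLocalRing.residue O (actO O σ ⟨x, hxO⟩ - ⟨x, hxO⟩) := by
        rw [map_sub]
        rfl
      rw [h2, ← hval] at h1
      exact h1
  · right; right
    refine ⟨hp, ?_⟩
    rw [← hcard]
    exact Nat.card_congr e.toEquiv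

end Galois

end Pool.Helper37.ETC
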